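import Mathlib

open Set Metric
open scoped symmDiff ENNReal

namespace Pool.Agent.Results.MP_1d6438_gt.Tree

/-- the Gromov-Hausdorff distance of X and Y is zero -/
def GHZero (X Y : Type) [MetricSpace X] [MetricSpace Y] : Prop :=
  ∀ ε > 0, ∃ (Z : Type) (_ : MetricSpace Z) (f : X → Z) (g : Y → Z), Isometry f ∧ Isometry g ∧
    hausdorffEDist (range f) (range g) < ε

def L (x y : Finset ℕ) : ℕ := (x ∆ y).sup id + 1

lemma L_comm (x y : Finset ℕ) : L x y = L y x := by rw [L, symmDiff_comm, L]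

lemma L_mem (x y : Finset ℕ) : L x y ∈ x ↔ L x y ∈ y := by
  have : L x y ∉ x ∆ y := fun h => by
    have := Finset.le_sup (f := id) h
    simp only [L, id] at this; omega
  rw [Finset.mem_symmDiff] at this; tauto

lemma L_tri (x y z : Finset ℕ) : L x z ≤ max (L x y) (L y z) := by
  have := Finset.sup_mono (f := id) (symmDiff_triangle x y z)
  rw [Finset.sup_eq_union, Finset.sup_union] at this
  simp only [L]; omega

noncomputable def d (b : Bool) (x y : Finset ℕ) : ℝ :=
  if x = y then 0 else L x y + if decide (L x y ∈ x) = b then 1 / (L x y + 1 : ℝ) else 0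

lemma d_bd (b : Bool) {x y : Finset ℕ} (h : x ≠ y) :
    L x y ≤ d b x y ∧ d b x y ≤ L x y + 1 / (L x y + 1 : ℝ) := by
  have : (0 : ℝ) < 1 / (L x y + 1) := by positivity
  rw [d, if_neg h]; split_ifs <;> constructor <;> linarith

lemma d_ne (b : Bool) {x y : Finset ℕ} (h : x ≠ y) :
    d b x y = L x y + if decide (L x y ∈ x) = b then 1 / (L x y + 1 : ℝ) else 0 := if_neg h

lemma L_one (x y : Finset ℕ) : (1 : ℝ) ≤ L x y := by simp [L]

lemma frac (n : ℕ) : 1 / (n + 1 : ℝ) ≤ 1 := by
  rw [div_le_one (by positivity)]; simp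

def T (_ : Bool) : Type := Finset ℕ

noncomputable instance (b : Bool) : MetricSpace (T b) where
  dist := d b
  dist_self x := by simp [d]
  dist_comm x y := by
    by_cases h : x = y
    · rw [h]
    · have := L_mem x y
      simp only [d_ne b h, d_ne b (Ne.symm h), L_comm y x, this]
  dist_triangle x y z := by
    have n : ∀ u v, 0 ≤ d b u v := fun u v => by
      by_cases h : u = v
      · simp [d, h]
      · linarith [(d_bd b h).1, L_one u v]
    by_cases h1 : x = y
    · simp [h1, d]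
    by_cases h2 : y = z
    · simp [h2, d]
    by_cases h3 : x = z
    · rw [show d b x z = 0 by simp [d, h3]]; exact add_nonneg (n _ _) (n _ _)
    have a := (d_bd b h3).2
    have := frac (L x z)
    have := (d_bd b h1).1
    have := (d_bd b h2).1
    have := L_one x y
    have := L_one y z
    rcases le_max_iff.1 (L_tri x y z) with h | h
    · have : (L x z : ℝ) ≤ L x y := by exact_mod_cast h
      linarith
    · have : (L x z : ℝ) ≤ L y z := by exact_mod_cast h
      linarith
  eq_of_dist_eq_zero {x y} h := by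
    by_contra hh
    linarith [(d_bd b hh).1, L_one x y]

lemma fin (R : ℝ) : ({r | ∃ x y : T true, r = dist x y} ∩ Iic R).Finite := by
  refine (((finite_Iic ⌈R⌉₊).image fun n : ℕ => (n : ℝ)).union
    ((finite_Iic ⌈R⌉₊).image fun n : ℕ => (n + 1 / (n + 1) : ℝ))).subset ?_
  rintro _ ⟨⟨x, y, rfl⟩, h⟩
  by_cases e : x = y
  · left; exact ⟨0, by simp, by simp [e]⟩
  have h1 : L x y ≤ ⌈R⌉₊ := by
    have := ((d_bd true e).1.trans h).trans (Nat.le_ceil R)
    exact_mod_cast this
  change d true x y ∈ _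
  rw [d_ne true e]
  split_ifs
  · right; exact ⟨_, h1, rfl⟩
  · left; exact ⟨_, h1, by simp⟩

lemma flip (N : ℕ) (x y : Finset ℕ) :
    |d true x y - d false (x ∆ Finset.range N) (y ∆ Finset.range N)| ≤ 2 * (1 / (N + 1 : ℝ)) := by
  have e : L (x ∆ Finset.range N) (y ∆ Finset.range N) = L x y := by
    rw [L, L, symmDiff_symmDiff_symmDiff_comm, symmDiff_self, symmDiff_bot]
  have p : (0 : ℝ) < 1 / (N + 1) := by positivity
  by_cases h : x = y
  · simp [d, h]; positivity
  rw [d_ne _ h, d_ne _ (fun h' => h (symmDiff_left_injective _ h')), e, add_sub_add_left_eq_sub]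
  by_cases hN : L x y < N
  · by_cases m : L x y ∈ x <;> simp [Finset.mem_symmDiff, m, hN] <;> positivity
  · have : 1 / (L x y + 1 : ℝ) ≤ 1 / (N + 1) :=
      one_div_le_one_div_of_le (by positivity) (by simpa using hN)
    have q : (0 : ℝ) < 1 / (L x y + 1) := by positivity
    rw [abs_le]
    split_ifs <;> constructor <;> linarith

lemma zero : GHZero (T true) (T false) := by
  intro ε hε
  obtain ⟨N, hN⟩ := ENNReal.exists_inv_nat_lt hε.ne'
  haveI : Nonempty (T true) := ⟨(∅ : Finset ℕ)⟩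
  let Ψ : T true → T false := fun x => (symmDiff (α := Finset ℕ) x (Finset.range N))
  letI m := glueMetricApprox (id : T true → T true) Ψ (1 / (N + 1 : ℝ)) (by positivity) (flip N)
  refine ⟨T true ⊕ T false, m, Sum.inl, Sum.inr, Isometry.of_dist_eq fun _ _ => rfl,
    Isometry.of_dist_eq fun _ _ => rfl, lt_of_le_of_lt ?_ hN⟩
  have k : ∀ x, edist (Sum.inl x : T true ⊕ T false) (Sum.inr (Ψ x)) ≤ (N : ℝ≥0∞)⁻¹ := by
    intro x
    have : dist (Sum.inl x : T true ⊕ T false) (Sum.inr (Ψ x)) = 1 / (N + 1 : ℝ) :=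
      glueDist_glued_points id Ψ _ x
    rw [edist_dist, this, one_div, ENNReal.ofReal_inv_of_pos (by positivity), ENNReal.inv_le_inv,
      ← ENNReal.ofReal_natCast]
    exact ENNReal.ofReal_le_ofReal (by linarith)
  apply hausdorffEDist_le_of_mem_edist
  · rintro _ ⟨x, rfl⟩
    exact ⟨_, mem_range_self _, k x⟩
  · rintro _ ⟨y, rfl⟩
    refine ⟨_, mem_range_self (symmDiff (α := Finset ℕ) y (Finset.range N)), ?_⟩
    have := k (symmDiff (α := Finset ℕ) y (Finset.range N))
    simp only [Ψ, symmDiff_symmDiff_cancel_right] at this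
    rwa [edist_comm]

lemma noniso : IsEmpty (T true ≃ᵢ T false) := by
  refine ⟨fun e => ?_⟩
  set x : Finset ℕ := e (∅ : Finset ℕ) with hx
  set n := x.sup id with hn
  have e1 : L x (x ∆ {n}) = n + 1 := by simp [L]
  have e2 : n + 1 ∉ x := fun h => by
    have := Finset.le_sup (f := id) h
    simp only [id] at this; omega
  have h1 : d false x (x ∆ {n}) = (n + 1 : ℕ) + 1 / ((n + 1 : ℕ) + 1 : ℝ) := by
    rw [d_ne _ (fun h => by simpa using symmDiff_eq_left.1 h.symm), e1, if_pos (by simpa using e2)]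
  obtain ⟨y, hy⟩ := e.surjective (x ∆ {n} : Finset ℕ)
  have h2 : d false x (x ∆ {n}) = d true ∅ y := by rw [← hy]; exact e.dist_eq _ _
  obtain ⟨k, hk⟩ : ∃ k : ℕ, d true ∅ y = k := by
    unfold d
    split_ifs with a b
    · exact ⟨0, by simp⟩
    · simp at b
    · exact ⟨_, add_zero _⟩
  rw [h1, hk] at h2
  have p : (0 : ℝ) < 1 / ((n + 1 : ℕ) + 1) := by positivity
  have q : 1 / ((n + 1 : ℕ) + 1 : ℝ) < 1 := by
    rw [div_lt_one (by positivity)]; push_cast; linarith [(n.cast_nonneg : (0 : ℝ) ≤ n)]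
  have a : n + 1 < k := by exact_mod_cast (by linarith : ((n + 1 : ℕ) : ℝ) < k)
  have b : k < n + 1 + 1 := by
    exact_mod_cast (by push_cast at *; linarith : (k : ℝ) < (n + 1 + 1 : ℕ))
  omega

theorem result : ∃ (X Y : Type) (_ : MetricSpace X) (_ : MetricSpace Y), Nonempty X ∧ Nonempty Y ∧
    IsClosed {r | ∃ x x' : X, r = dist x x'} ∧ IsDiscrete {r | ∃ x x' : X, r = dist x x'} ∧
    GHZero X Y ∧ IsEmpty (X ≃ᵢ Y) := by
  have h : IsClosed {r | ∃ x x' : T true, r = dist x x'} ∧
      IsDiscrete {r | ∃ x x' : T true, r = dist x x'} := by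
    rw [isClosed_and_discrete_iff]
    intro r
    rw [Filter.disjoint_principal_right]
    have h1 := ((fin (r + 1)).subset (diff_subset (t := {r}))).isClosed.isOpen_compl.mem_nhds
      (x := r) (by simp)
    filter_upwards [nhdsWithin_le_nhds h1, nhdsWithin_le_nhds (Iic_mem_nhds (lt_add_one r)),
      self_mem_nhdsWithin] with s h2 h3 h4 h5 using h2 ⟨⟨h5, h3⟩, h4⟩
  exact ⟨T true, T false, inferInstance, inferInstance, ⟨(∅ : Finset ℕ)⟩, ⟨(∅ : Finset ℕ)⟩,
    h.1, h.2, zero, noniso⟩

end Pool.Agent.Results.MP_1d6438_gt.Tree
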